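import Pool.Agent.Lib_helper92.O3.Defs

/-!
# Ore's value in the whole second period: definitions for the second case
-/

set_option autoImplicit false
set_option linter.unusedSectionVars false

open scoped Classical
open Finset
open Pool.Agent.O2 (PC Cb CrOn pr ms dg nd Joined)

namespace Pool.Agent.O3

variable {V : Type}

/-- two `K`-cliques `insert x A` and `insert x B` without edges between `A` and `B`; `R` is the
rest of `S` -/
structure Cross (G : SimpleGraph V) (S : Finset V) (K : ℕ) (x : V) (A B R : Finset V) : Prop where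
  hx : x ∈ S
  hA : A ⊆ S
  hB : B ⊆ S
  hR : R ⊆ S
  xnA : x ∉ A
  xnB : x ∉ B
  dis : Disjoint A B
  cA : A.card + 1 = K
  cB : B.card + 1 = K
  clA : Clq G A
  clB : Clq G B
  xA : ∀ y ∈ A, G.Adj x y
  xB : ∀ y ∈ B, G.Adj x y
  no : ∀ y ∈ A, ∀ y' ∈ B, ¬ G.Adj y y'
  mR : ∀ v, v ∈ R ↔ v ∈ S ∧ v ≠ x ∧ v ∉ A ∧ v ∉ B
  big : K + 1 ≤ (S \ R).card

/-- what a colouring `ψ` of `S \ R` tells about `R`, when `ff` of `R` has its smallest value and
`a a'`, `b b'` are two disjoint non-edges of `R` -/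
structure Tw {K : ℕ} (G : SimpleGraph V) (S R : Finset V) (ψ : V → Fin K) (a a' b b' : V) :
    Prop where
  inj : ∀ v ∈ R, (hit G (S \ R) ψ v).card = dg G (S \ R) v
  cov : ∀ u ∈ R, ∀ v ∈ R, u ≠ v → ¬ G.Adj u v →
    ∀ i, i ∈ hit G (S \ R) ψ u ∨ i ∈ hit G (S \ R) ψ v
  four : eb G {a, a', b, b'} = 4
  sm : ∀ v ∈ ({a, a', b, b'} : Finset V), (hit G (S \ R) ψ v).card + 2 ≤ K
  out : ∀ v ∈ R, v ∉ ({a, a', b, b'} : Finset V) →
    (hit G (S \ R) ψ v).card + dg G R v = K ∧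
    ∀ u ∈ R, u ∉ ({a, a', b, b'} : Finset V) → u ≠ v → G.Adj v u
  all : ∀ v ∈ R, nd G R v = 0 → ∀ u ∈ R, ∀ i, i ∉ hit G (S \ R) ψ u → i ∉ hit G (S \ R) ψ v

end Pool.Agent.O3
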