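import Pool.Agent.Lib_helper46.O2.G3

/-!
# Ore's value in the whole second period: definitions

`K` is the number of colours, `S` the vertex set of a critical graph (inside a graph on a type).
`eb` counts non-edges, `ff` is the number of non-edges inside `W` plus the excess of its vertices.
-/

set_option autoImplicit false
set_option linter.unusedSectionVars false

open scoped Classical
open Finset
open Pool.Agent.O2 (PC Cb CrOn pr ms dg nd Joined)

namespace Pool.Agent.O3

variable {V : Type}

/-- the union (with one fixed choice of the decidability instance) -/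
noncomputable def uni {α : Type} (X Y : Finset α) : Finset α := X ∪ Y

theorem mem_uni {α : Type} {X Y : Finset α} {a : α} : a ∈ uni X Y ↔ a ∈ X ∨ a ∈ Y := mem_union

/-- the number of (unordered) non-adjacent pairs inside `X` -/
noncomputable def eb (G : SimpleGraph V) (X : Finset V) : ℕ := ms G X / 2

/-- `f(W)`: the non-edges inside `W` plus the excess `deg - K` of the vertices of `W`; the degrees
are taken in `S` -/
noncomputable def ff (G : SimpleGraph V) (S : Finset V) (K : ℕ) (W : Finset V) : ℤ :=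
  (eb G W : ℤ) + ∑ v ∈ W, ((dg G S v : ℤ) - K)

/-- the number of non-edges of Ore's graphs on `2 K + 1 + p` vertices -/
def T (K p : ℕ) : ℕ := K ^ 2 + K * p + p ^ 2 + 2

/-- the theorem for all critical graphs with fewer than `n` vertices -/
def IH (n : ℕ) : Prop :=
  ∀ (V : Type) (G : SimpleGraph V) (S : Finset V) (K p : ℕ), CrOn G S K →
    S.card = 2 * K + 1 + p → 1 ≤ p → p ≤ K → S.card < n → eb G S ≤ T K p

/-- `X` is a clique -/
def Clq (G : SimpleGraph V) (X : Finset V) : Prop := ∀ a ∈ X, ∀ b ∈ X, a ≠ b → G.Adj a b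

/-- `X` contains two different non-adjacent vertices -/
def Non (G : SimpleGraph V) (X : Finset V) : Prop := ∃ a ∈ X, ∃ b ∈ X, a ≠ b ∧ ¬ G.Adj a b

/-- `a, b, c` are different and pairwise non-adjacent -/
def Ind3 (G : SimpleGraph V) (a b c : V) : Prop :=
  a ≠ b ∧ a ≠ c ∧ b ≠ c ∧ ¬ G.Adj a b ∧ ¬ G.Adj a c ∧ ¬ G.Adj b c

/-- `X` contains three pairwise non-adjacent vertices -/
def Tri (G : SimpleGraph V) (X : Finset V) : Prop := ∃ a ∈ X, ∃ b ∈ X, ∃ c ∈ X, Ind3 G a b c

/-- `a a'` and `b b'` are two disjoint non-edges -/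
def Dis4 (G : SimpleGraph V) (a a' b b' : V) : Prop :=
  a ≠ a' ∧ b ≠ b' ∧ a ≠ b ∧ a ≠ b' ∧ a' ≠ b ∧ a' ≠ b' ∧ ¬ G.Adj a a' ∧ ¬ G.Adj b b'

/-- `X` contains two disjoint non-edges -/
def Two (G : SimpleGraph V) (X : Finset V) : Prop :=
  ∃ a ∈ X, ∃ a' ∈ X, ∃ b ∈ X, ∃ b' ∈ X, Dis4 G a a' b b'

/-- the vertices of `Z` that are not adjacent to `v` -/
noncomputable def Ls (G : SimpleGraph V) (Z : Finset V) (v : V) : Finset V :=
  Z.filter fun z => ¬ G.Adj v z

/-- the colour classes (of `ψ` on `R`) which contain a neighbour of `v` -/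
noncomputable def hit {K : ℕ} (G : SimpleGraph V) (R : Finset V) (ψ : V → Fin K) (v : V) :
    Finset (Fin K) :=
  univ.filter fun i => ∃ y ∈ R, ψ y = i ∧ G.Adj v y

/-- the graph in which the colour classes of `ψ` on `R` are contracted to a clique -/
def con {K : ℕ} (G : SimpleGraph V) (R : Finset V) (ψ : V → Fin K) : SimpleGraph (V ⊕ Fin K) where
  Adj x y := match x, y with
    | Sum.inl a, Sum.inl b => G.Adj a b
    | Sum.inl a, Sum.inr i => i ∈ hit G R ψ a
    | Sum.inr i, Sum.inl a => i ∈ hit G R ψ a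
    | Sum.inr i, Sum.inr j => i ≠ j
  symm := ⟨by
    rintro (a | i) (b | j) h
    · exact SimpleGraph.Adj.symm h
    · exact h
    · exact h
    · exact Ne.symm h⟩
  loopless := ⟨by
    rintro (a | i) h
    · exact G.irrefl h
    · exact h rfl⟩

/-- neighbours of `v` outside, counted with multiplicity beyond one for each class -/
noncomputable def sur {K : ℕ} (G : SimpleGraph V) (R : Finset V) (ψ : V → Fin K) (W : Finset V) :
    ℤ := ∑ v ∈ W, ((dg G R v : ℤ) - (hit G R ψ v).card)

/-- every class, and the clique of all classes, is in the critical graph: case (E2) -/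
def E2 {K : ℕ} (G : SimpleGraph V) (R : Finset V) (ψ : V → Fin K) (W : Finset V) : Prop :=
  CrOn (con G R ψ) (W.disjSum univ) K

/-- a critical graph with connected complement, a clique `Z` of `q` of its vertices, `W` the
others -/
structure Jay (G : SimpleGraph V) (q : ℕ) (Z W : Finset V) : Prop where
  cr : CrOn G (uni W Z) q
  dis : Disjoint W Z
  clq : Clq G Z
  card : Z.card = q
  conn : ¬ Joined G (uni W Z)
  two : 2 ≤ q

/-- no two non-adjacent vertices of `W` have a common non-neighbour in `Z` -/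
def Nice (G : SimpleGraph V) (Z W : Finset V) : Prop :=
  ∀ a ∈ W, ∀ b ∈ W, a ≠ b → ¬ G.Adj a b → ∀ z ∈ Z, G.Adj a z ∨ G.Adj b z

/-- no vertex of `W` has exactly one non-neighbour in `Z` -/
def NoOne (G : SimpleGraph V) (Z W : Finset V) : Prop := ∀ v ∈ W, (Ls G Z v).card ≠ 1

/-- the bounds of Lemma 6 for critical graphs on `n` vertices -/
def P6 (n : ℕ) : Prop :=
  ∀ (V : Type) (G : SimpleGraph V) (S W : Finset V) (K : ℕ), CrOn G S K → S.card = n →
    S.card ≤ 3 * K + 1 → W ⊆ S → K + 1 ≤ (S \ W).card →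
    (Tri G W → 2 * (W.card : ℤ) - 5 ≤ ff G S K W) ∧
    (Two G W → 2 * (W.card : ℤ) - 6 ≤ ff G S K W)

/-- `a b` is a non-edge of `W` and `z` in `Z` a common non-neighbour -/
structure Com (G : SimpleGraph V) (Z W : Finset V) (a b z : V) : Prop where
  ha : a ∈ W
  hb : b ∈ W
  hz : z ∈ Z
  ne : a ≠ b
  ab : ¬ G.Adj a b
  az : ¬ G.Adj a z
  bz : ¬ G.Adj b z

/-- a clique `B` in `W` which avoids `a, b` and can replace the part `A` (containing `z`) of the
clique `Z` -/
structure Cfg (G : SimpleGraph V) (Z W : Finset V) (a b z : V) (A B : Finset V) : Prop where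
  hB : B ⊆ W
  hA : A ⊆ Z
  ha : a ∉ B
  hb : b ∉ B
  hz : z ∈ A
  clq : Clq G B
  card : B.card = A.card
  adj : ∀ v ∈ B, ∀ u ∈ Z, u ∉ A → G.Adj v u

/-- the situation that is excluded by Lemma Z: `S \ W` is critical with one colour less,
`a, b, c` is an independent triple in `W`, and `ff` is small -/
structure Tight (G : SimpleGraph V) (S W : Finset V) (K : ℕ) (a b c : V) : Prop where
  cr : CrOn G S K
  sub : W ⊆ S
  cr' : CrOn G (S \ W) (K - 1)
  big : K + 2 ≤ (S \ W).card
  three : S.card ≤ 3 * K + 1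
  ha : a ∈ W
  hb : b ∈ W
  hc : c ∈ W
  ind : Ind3 G a b c
  small : ff G S K W ≤ 2 * (W.card : ℤ) - 5

/-- a counterexample in which all critical subgraphs with one colour less that avoid an independent
triple are `K`-cliques -/
structure Bad (G : SimpleGraph V) (S : Finset V) (K p : ℕ) : Prop where
  cr : CrOn G S K
  card : S.card = 2 * K + 1 + p
  hK : 3 ≤ K
  hp : 1 ≤ p
  hpK : p ≤ K
  big : T K p < eb G S
  clq : ∀ S' ⊆ S, CrOn G S' (K - 1) → Tri G (S \ S') → S'.card = K

/-- a `K`-clique in `S` -/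
structure KC (G : SimpleGraph V) (S : Finset V) (K : ℕ) (Q : Finset V) : Prop where
  sub : Q ⊆ S
  clq : Clq G Q
  card : Q.card = K

end Pool.Agent.O3
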